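import Mathlib

set_option autoImplicit false

namespace Pool.Agent.W123.UF

/-- properties of finite graphs -/
abbrev Prp := (n : ℕ) → SimpleGraph (Fin n) → Prop

/-- closed under subgraphs -/
def Her (P : Prp) : Prop :=
  ∀ (a b : ℕ) (G : SimpleGraph (Fin a)) (H : SimpleGraph (Fin b)) (f : H →g G),
    Function.Injective f → P a G → P b H

/-- the part `S` of `G` induces a graph with property `P` -/
def InP (P : Prp) {n : ℕ} (G : SimpleGraph (Fin n)) (S : Set (Fin n)) : Prop :=
  ∃ (r : ℕ) (K : SimpleGraph (Fin r)), P r K ∧ Nonempty (G.induce S ≃g K)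

/-- at most two vertices, or edgeless with at most three vertices -/
def A : Prp := fun n G => n ≤ 2 ∨ (n ≤ 3 ∧ ∀ a b, ¬ G.Adj a b)

/-- at most four vertices, or bipartite with sides of size at most three -/
def B : Prp := fun n G => n ≤ 4 ∨ ∃ T : Set (Fin n), T.ncard ≤ 3 ∧ Tᶜ.ncard ≤ 3 ∧
  (∀ a ∈ T, ∀ b ∈ T, ¬ G.Adj a b) ∧ (∀ a ∉ T, ∀ b ∉ T, ¬ G.Adj a b)

lemma card_eq_of_iso {n r : ℕ} {G : SimpleGraph (Fin n)} {S : Set (Fin n)}
    {K : SimpleGraph (Fin r)} (e : G.induce S ≃g K) : S.ncard = r := by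
  have h := Nat.card_congr e.toEquiv
  rw [Nat.card_fin] at h
  rw [← h]
  rfl

lemma exists_iso {n : ℕ} (G : SimpleGraph (Fin n)) (S : Set (Fin n)) :
    ∃ (K : SimpleGraph (Fin S.ncard)), Nonempty (G.induce S ≃g K) := by
  classical
  have e : S ≃ Fin S.ncard := by
    have := Fintype.ofFinite S
    have h : Fintype.card S = S.ncard := by
      rw [← Nat.card_eq_fintype_card]; rfl
    exact Fintype.equivFinOfCardEq h
  exact ⟨(G.induce S).map e.toEmbedding, ⟨SimpleGraph.Iso.map e _⟩⟩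

lemma her_A : Her A := by
  intro a b G H f hf h
  have hc : b ≤ a := by
    have := Fintype.card_le_of_injective f hf
    simpa using this
  rcases h with h | ⟨h, h2⟩
  · exact Or.inl (hc.trans h)
  · exact Or.inr ⟨hc.trans h, fun x y hxy => h2 _ _ (f.map_adj hxy)⟩

lemma her_B : Her B := by
  intro a b G H f hf h
  have hc : b ≤ a := by
    have := Fintype.card_le_of_injective f hf
    simpa using this
  rcases h with h | ⟨T, h1, h2, h3, h4⟩
  · exact Or.inl (hc.trans h)
  · refine Or.inr ⟨f ⁻¹' T, ?_, ?_, ?_, ?_⟩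
    · refine le_trans ?_ h1
      exact Set.ncard_le_ncard_of_injOn f (fun x hx => hx) hf.injOn
    · refine le_trans ?_ h2
      exact Set.ncard_le_ncard_of_injOn f (fun x hx => hx) hf.injOn
    · exact fun x hx y hy hxy => h3 _ hx _ hy (f.map_adj hxy)
    · exact fun x hx y hy hxy => h4 _ hx _ hy (f.map_adj hxy)

lemma A_one : A 1 ⊥ := Or.inl (by norm_num)
lemma B_one : B 1 ⊥ := Or.inl (by norm_num)

lemma inA_iff {n : ℕ} (G : SimpleGraph (Fin n)) (S : Set (Fin n)) :
    InP A G S ↔ (S.ncard ≤ 2 ∨ (S.ncard ≤ 3 ∧ ∀ a ∈ S, ∀ b ∈ S, ¬ G.Adj a b)) := by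
  constructor
  · rintro ⟨r, K, hK, ⟨e⟩⟩
    have hc := card_eq_of_iso e
    rcases hK with h | ⟨h, h2⟩
    · exact Or.inl (by omega)
    · refine Or.inr ⟨by omega, fun a ha b hb hab => ?_⟩
      exact h2 (e ⟨a, ha⟩) (e ⟨b, hb⟩) (e.map_rel_iff.mpr hab)
  · intro h
    obtain ⟨K, ⟨e⟩⟩ := exists_iso G S
    refine ⟨_, K, ?_, ⟨e⟩⟩
    rcases h with h | ⟨h, h2⟩
    · exact Or.inl h
    · refine Or.inr ⟨h, fun x y hxy => ?_⟩
      have := e.symm.map_rel_iff.mpr hxy
      exact h2 _ (e.symm x).2 _ (e.symm y).2 this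

lemma inB_iff {n : ℕ} (G : SimpleGraph (Fin n)) (S : Set (Fin n)) :
    InP B G S ↔ (S.ncard ≤ 4 ∨ ∃ T U : Set (Fin n), S = T ∪ U ∧ Disjoint T U ∧
      T.ncard ≤ 3 ∧ U.ncard ≤ 3 ∧
      (∀ a ∈ T, ∀ b ∈ T, ¬ G.Adj a b) ∧ (∀ a ∈ U, ∀ b ∈ U, ¬ G.Adj a b)) := by
  constructor
  · rintro ⟨r, K, hK, ⟨e⟩⟩
    have hc := card_eq_of_iso e
    rcases hK with h | ⟨T, h1, h2, h3, h4⟩
    · exact Or.inl (by omega)
    · refine Or.inr ⟨{a | ∃ h : a ∈ S, e ⟨a, h⟩ ∈ T}, {a | ∃ h : a ∈ S, e ⟨a, h⟩ ∉ T},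
        ?_, ?_, ?_, ?_, ?_, ?_⟩
      · ext a
        simp only [Set.mem_union, Set.mem_ofPred_eq]
        constructor
        · intro ha
          by_cases h : e ⟨a, ha⟩ ∈ T
          · exact Or.inl ⟨ha, h⟩
          · exact Or.inr ⟨ha, h⟩
        · rintro (⟨h, -⟩ | ⟨h, -⟩) <;> exact h
      · rw [Set.disjoint_left]
        rintro a ⟨h, h'⟩ ⟨h'', h'''⟩
        exact h''' h'
      · refine le_trans ?_ h1
        have : {a | ∃ h : a ∈ S, e ⟨a, h⟩ ∈ T} = (fun x => ((e.symm x : S) : Fin n)) '' T := by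
          ext a
          constructor
          · rintro ⟨h, h'⟩
            exact ⟨e ⟨a, h⟩, h', by simp⟩
          · rintro ⟨x, hx, rfl⟩
            exact ⟨(e.symm x).2, by simpa using hx⟩
        rw [this]
        exact Set.ncard_image_le
      · refine le_trans ?_ h2
        have : {a | ∃ h : a ∈ S, e ⟨a, h⟩ ∉ T} = (fun x => ((e.symm x : S) : Fin n)) '' Tᶜ := by
          ext a
          constructor
          · rintro ⟨h, h'⟩
            exact ⟨e ⟨a, h⟩, h', by simp⟩
          · rintro ⟨x, hx, rfl⟩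
            exact ⟨(e.symm x).2, by simpa using hx⟩
        rw [this]
        exact Set.ncard_image_le
      · rintro a ⟨ha, ha'⟩ b ⟨hb, hb'⟩ hab
        exact h3 _ ha' _ hb' (e.map_rel_iff.mpr hab)
      · rintro a ⟨ha, ha'⟩ b ⟨hb, hb'⟩ hab
        exact h4 _ ha' _ hb' (e.map_rel_iff.mpr hab)
  · intro h
    obtain ⟨K, ⟨e⟩⟩ := exists_iso G S
    refine ⟨_, K, ?_, ⟨e⟩⟩
    rcases h with h | ⟨T, U, hS, hd, h1, h2, h3, h4⟩
    · exact Or.inl h
    · refine Or.inr ⟨{x | ((e.symm x : S) : Fin n) ∈ T}, ?_, ?_, ?_, ?_⟩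
      · refine le_trans ?_ h1
        exact Set.ncard_le_ncard_of_injOn (fun x => ((e.symm x : S) : Fin n)) (fun x hx => hx)
          (fun x _ y _ hxy => e.symm.injective (Subtype.ext hxy))
      · refine le_trans ?_ h2
        refine Set.ncard_le_ncard_of_injOn (fun x => ((e.symm x : S) : Fin n)) (fun x hx => ?_)
          (fun x _ y _ hxy => e.symm.injective (Subtype.ext hxy))
        have h5 : ((e.symm x : S) : Fin n) ∈ T ∪ U := hS ▸ (e.symm x).2
        exact h5.resolve_left hx
      · intro x hx y hy hxy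
        exact h3 _ hx _ hy (e.symm.map_rel_iff.mpr hxy)
      · intro x hx y hy hxy
        have h5 : ((e.symm x : S) : Fin n) ∈ T ∪ U := hS ▸ (e.symm x).2
        have h6 : ((e.symm y : S) : Fin n) ∈ T ∪ U := hS ▸ (e.symm y).2
        exact h4 _ (h5.resolve_left hx) _ (h6.resolve_left hy) (e.symm.map_rel_iff.mpr hxy)

lemma inP_of_hom {P : Prp} (hP : Her P) {a n : ℕ} {K : SimpleGraph (Fin a)} (hK : P a K)
    {G : SimpleGraph (Fin n)} {S : Set (Fin n)} (g : G.induce S →g K)
    (hg : Function.Injective g) : InP P G S := by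
  obtain ⟨K', ⟨e⟩⟩ := exists_iso G S
  exact ⟨_, K', hP _ _ K K' (g.comp e.symm.toHom) (hg.comp e.symm.injective) hK, ⟨e⟩⟩

lemma of_inP {P : Prp} (hP : Her P) {a n : ℕ} {K : SimpleGraph (Fin a)}
    {G : SimpleGraph (Fin n)} {S : Set (Fin n)} (h : InP P G S) (g : K →g G.induce S)
    (hg : Function.Injective g) : P a K := by
  obtain ⟨r, K', hK', ⟨e⟩⟩ := h
  exact hP _ _ K' K (e.toHom.comp g) (e.injective.comp hg) hK'

lemma inP_congr {P : Prp} {n : ℕ} {G J : SimpleGraph (Fin n)} {S : Set (Fin n)}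
    (h : InP P G S) (hJ : ∀ a ∈ S, ∀ b ∈ S, (J.Adj a b ↔ G.Adj a b)) : InP P J S := by
  obtain ⟨r, K, hK, ⟨e⟩⟩ := h
  have : J.induce S = G.induce S := by
    ext x y
    exact hJ _ x.2 _ y.2
  exact ⟨r, K, hK, ⟨this ▸ e⟩⟩

/-- an edgeless graph on `r ≤ |S|` vertices belongs to `P` if the part `S` does -/
lemma bot_of_inP {P : Prp} (hP : Her P) {n r : ℕ} {G : SimpleGraph (Fin n)} {S : Set (Fin n)}
    (h : InP P G S) (hr : r ≤ S.ncard) : P r ⊥ := by
  obtain ⟨s, K, hK, ⟨e⟩⟩ := h
  have hc := card_eq_of_iso e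
  have hrs : r ≤ s := by omega
  refine hP _ _ K ⊥ ⟨Fin.castLE hrs, ?_⟩ (Fin.castLE_injective hrs) hK
  intro a b hab
  exact absurd hab (by simp)

/-- edgeless parts -/
lemma inP_bot {P : Prp} (hP : Her P) {n r : ℕ} {G : SimpleGraph (Fin n)} {S : Set (Fin n)}
    (h : P r ⊥) (hr : S.ncard ≤ r) (hS : ∀ a ∈ S, ∀ b ∈ S, ¬ G.Adj a b) : InP P G S := by
  obtain ⟨K', ⟨e⟩⟩ := exists_iso G S
  refine ⟨_, K', hP _ _ ⊥ K' ⟨Fin.castLE hr, ?_⟩ (Fin.castLE_injective hr) h, ⟨e⟩⟩
  intro a b hab
  exact absurd (e.symm.map_rel_iff.mpr hab) (hS _ (e.symm a).2 _ (e.symm b).2)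

/-- the join of the two parts of `G` given by `S` -/
def joinAt {n : ℕ} (G : SimpleGraph (Fin n)) (S : Set (Fin n)) : SimpleGraph (Fin n) where
  Adj a b := G.Adj a b ∨ (a ∈ S ∧ b ∉ S) ∨ (a ∉ S ∧ b ∈ S)
  symm := ⟨by
    rintro a b (h | h | h)
    · exact Or.inl h.symm
    · exact Or.inr (Or.inr ⟨h.2, h.1⟩)
    · exact Or.inr (Or.inl ⟨h.2, h.1⟩)⟩
  loopless := ⟨by
    rintro a (h | h | h)
    · exact G.loopless.irrefl a h
    · exact h.2 h.1
    · exact h.1 h.2⟩

/-- the reducibility hypothesis -/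
def Prod (P C D : Prp) : Prop := ∀ (n : ℕ) (G : SimpleGraph (Fin n)),
  (P n G ↔ ∃ S : Set (Fin n), InP C G S ∧ InP D G Sᶜ)

lemma Prod.join {P C D : Prp} (h : Prod P C D) {n : ℕ} {G : SimpleGraph (Fin n)}
    {S : Set (Fin n)} (h1 : InP C G S) (h2 : InP D G Sᶜ) : P n (joinAt G S) := by
  refine (h n _).mpr ⟨S, inP_congr h1 ?_, inP_congr h2 ?_⟩
  · intro a ha b hb
    constructor
    · rintro (h | h | h)
      · exact h
      · exact absurd hb h.2
      · exact absurd ha h.1
    · exact Or.inl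
  · intro a ha b hb
    constructor
    · rintro (h | h | h)
      · exact h
      · exact absurd h.1 ha
      · exact absurd h.2 hb
    · exact Or.inl

/-- if both factors contain `K₁` and the product contains no edgeless graph on `r + 1` vertices,
then in a partition of a member with `r` vertices both parts are nonempty -/
lemma parts_nonempty {P C D : Prp} (hC : Her C) (hD : Her D) (hC1 : C 1 ⊥) (hD1 : D 1 ⊥)
    (h : Prod P C D) {r : ℕ} (hr : ¬ P (r + 1) ⊥) {G : SimpleGraph (Fin r)} {S : Set (Fin r)}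
    (h1 : InP C G S) (h2 : InP D G Sᶜ) : S.Nonempty ∧ Sᶜ.Nonempty := by
  constructor
  · by_contra hS
    rw [Set.not_nonempty_iff_eq_empty] at hS
    subst hS
    have h3 : D r ⊥ := bot_of_inP hD h2 (by simp)
    apply hr
    refine (h _ _).mpr ⟨{0}, inP_bot hC hC1 (by simp) (by simp), inP_bot hD h3 ?_ (by simp)⟩
    have := Set.ncard_add_ncard_compl ({0} : Set (Fin (r + 1)))
    simp at this
    omega
  · by_contra hS
    rw [Set.not_nonempty_iff_eq_empty] at hS
    have hS' : S = Set.univ := by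
      rw [← compl_compl S, hS, Set.compl_empty]
    subst hS'
    have h3 : C r ⊥ := bot_of_inP hC h1 (by simp)
    apply hr
    refine (h _ _).mpr ⟨{0}ᶜ, inP_bot hC h3 ?_ (by simp), ?_⟩
    · have := Set.ncard_add_ncard_compl ({0} : Set (Fin (r + 1)))
      simp at this
      omega
    · rw [compl_compl]
      exact inP_bot hD hD1 (by simp) (by simp)

theorem irred_A (C D : Prp) (hC : Her C) (hD : Her D) (hC1 : C 1 ⊥) (hD1 : D 1 ⊥) :
    ¬ Prod A C D := by
  intro h
  have hA : A 3 ⊥ := Or.inr ⟨le_rfl, by simp⟩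
  have hA4 : ¬ A 4 ⊥ := by
    rintro (h | ⟨h, -⟩) <;> omega
  obtain ⟨S, h1, h2⟩ := (h _ _).mp hA
  obtain ⟨⟨a, ha⟩, ⟨b, hb⟩⟩ := parts_nonempty hC hD hC1 hD1 h hA4 h1 h2
  rcases h.join h1 h2 with h3 | ⟨-, h3⟩
  · omega
  · exact h3 a b (Or.inr (Or.inl ⟨ha, hb⟩))

lemma B_card {n : ℕ} {G : SimpleGraph (Fin n)} (h : B n G) : n ≤ 6 := by
  rcases h with h | ⟨T, h1, h2, -⟩
  · omega
  · have := Set.ncard_add_ncard_compl T
    simp at this
    omega

/-- `K_{3,3}` -/
def K33 : SimpleGraph (Fin 6) where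
  Adj a b := (a.val < 3 ∧ 3 ≤ b.val) ∨ (3 ≤ a.val ∧ b.val < 3)
  symm := ⟨by intro a b h; omega⟩
  loopless := ⟨by intro a h; omega⟩

lemma B_K33 : B 6 K33 := by
  refine Or.inr ⟨{0, 1, 2}, ?_, ?_, ?_, ?_⟩
  · rw [Set.ncard_eq_toFinset_card']; decide
  · rw [Set.ncard_eq_toFinset_card']; decide
  · intro a ha b hb hab
    simp only [Set.mem_insert_iff, Set.mem_singleton_iff] at ha hb
    unfold K33 at hab
    simp only at hab
    rcases ha with rfl | rfl | rfl <;> rcases hb with rfl | rfl | rfl <;> revert hab <;> decide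
  · intro a ha b hb hab
    unfold K33 at hab
    simp only at hab
    simp only [Set.mem_insert_iff, Set.mem_singleton_iff] at ha hb
    have ha' : 3 ≤ a.val := by
      by_contra h
      apply ha
      omega
    have hb' : 3 ≤ b.val := by
      by_contra h
      apply hb
      omega
    omega

/-- the join of an edge and three isolated vertices is not in `B` -/
lemma key {P C D : Prp} (h : Prod P C D) (hC : Her C) (hD : Her D)
    (hC2 : C 2 ⊤) (hD3 : D 3 ⊥) : ∃ G : SimpleGraph (Fin 5), P 5 G ∧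
      ∃ a b c, G.Adj a b ∧ G.Adj b c ∧ G.Adj a c := by
  let G : SimpleGraph (Fin 5) := {
    Adj := fun a b => a ≠ b ∧ (a.val < 2 ∨ b.val < 2)
    symm := ⟨by rintro a b ⟨h, h'⟩; exact ⟨h.symm, h'.symm⟩⟩
    loopless := ⟨by rintro a ⟨h, -⟩; exact h rfl⟩ }
  refine ⟨G, (h _ _).mpr ⟨{a | a.val < 2}, ?_, ?_⟩, 0, 1, 2, ?_, ?_, ?_⟩
  · refine inP_of_hom hC hC2 (K := ⊤) ⟨fun x => ⟨x.1.val, x.2⟩, ?_⟩ ?_
    · intro x y hxy
      have hxy' : x.1 ≠ y.1 := hxy.1
      simp only [SimpleGraph.top_adj, ne_eq, Fin.mk.injEq]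
      intro h
      exact hxy' (Fin.ext h)
    · intro x y hxy
      have : x.1.val = y.1.val := by simpa using hxy
      exact Subtype.ext (Fin.ext this)
  · refine inP_bot hD hD3 ?_ ?_
    · rw [Set.ncard_eq_toFinset_card']
      decide
    · intro a ha b hb hab
      have ha' : ¬ a.val < 2 := ha
      have hb' : ¬ b.val < 2 := hb
      exact hab.2.elim ha' hb'
  · exact ⟨by decide, by decide⟩
  · exact ⟨by decide, by decide⟩
  · exact ⟨by decide, by decide⟩

lemma not_B_of_triangle {G : SimpleGraph (Fin 5)} (h : B 5 G) (a b c : Fin 5)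
    (hab : G.Adj a b) (hbc : G.Adj b c) (hac : G.Adj a c) : False := by
  rcases h with h | ⟨T, -, -, h3, h4⟩
  · omega
  · by_cases ha : a ∈ T <;> by_cases hb : b ∈ T <;> by_cases hc : c ∈ T
    · exact h3 a ha b hb hab
    · exact h3 a ha b hb hab
    · exact h3 a ha c hc hac
    · exact h4 b hb c hc hbc
    · exact h3 b hb c hc hbc
    · exact h4 a ha c hc hac
    · exact h4 a ha b hb hab
    · exact h4 a ha b hb hab

lemma top_of_inP {P : Prp} (hP : Her P) {n : ℕ} {S : Set (Fin n)}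
    (h : InP P (⊤ : SimpleGraph (Fin n)) S) (hS : 2 ≤ S.ncard) : P 2 ⊤ := by
  obtain ⟨a, ha, b, hb, hab⟩ := (Set.one_lt_ncard (Set.toFinite S)).mp hS
  refine of_inP hP h ⟨![⟨a, ha⟩, ⟨b, hb⟩], ?_⟩ ?_
  · intro x y hxy
    have hxy' : x ≠ y := hxy
    fin_cases x <;> fin_cases y <;> simp_all
    · exact fun h => hab h.symm
  · intro x y hxy
    fin_cases x <;> fin_cases y <;> simp_all
    · exact absurd hxy.symm hab

theorem irred_B (C D : Prp) (hC : Her C) (hD : Her D) (hC1 : C 1 ⊥) (hD1 : D 1 ⊥) :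
    ¬ Prod B C D := by
  intro h
  have hB7 : ¬ B (6 + 1) ⊥ := fun h => by have := B_card h; omega
  obtain ⟨S, h1, h2⟩ := (h _ _).mp B_K33
  obtain ⟨⟨a, ha⟩, ⟨b, hb⟩⟩ := parts_nonempty hC hD hC1 hD1 h hB7 h1 h2
  have hcard : S.ncard = 3 ∧ Sᶜ.ncard = 3 := by
    rcases h.join h1 h2 with h3 | ⟨T, h3, h4, h5, h6⟩
    · omega
    · have hT := Set.ncard_add_ncard_compl T
      simp at hT
      have hT3 : T.ncard = 3 := by omega
      have hT3' : Tᶜ.ncard = 3 := by omega
      have hcross : ∀ x ∈ S, ∀ y ∉ S, (x ∈ T ↔ y ∉ T) := by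
        intro x hx y hy
        have hxy : (joinAt K33 S).Adj x y := Or.inr (Or.inl ⟨hx, hy⟩)
        constructor
        · intro h7 h8
          exact h5 x h7 y h8 hxy
        · intro h7
          by_contra h8
          exact h6 x h8 y h7 hxy
      by_cases haT : a ∈ T
      · have hST : S = T := by
          ext x
          by_cases hx : x ∈ S
          · have h7 := hcross x hx b hb
            have h8 := hcross a ha b hb
            tauto
          · have h8 := hcross a ha x hx
            tauto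
        rw [hST]
        exact ⟨hT3, hT3'⟩
      · have hST : S = Tᶜ := by
          ext x
          rw [Set.mem_compl_iff]
          by_cases hx : x ∈ S
          · have h7 := hcross x hx b hb
            have h8 := hcross a ha b hb
            tauto
          · have h8 := hcross a ha x hx
            tauto
        rw [hST, compl_compl]
        exact ⟨hT3', hT3⟩
  have hC3 : C 3 ⊥ := bot_of_inP hC h1 hcard.1.ge
  have hD3 : D 3 ⊥ := bot_of_inP hD h2 hcard.2.ge
  have hB4 : B 4 ⊤ := Or.inl le_rfl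
  obtain ⟨S', h3, h4⟩ := (h _ _).mp hB4
  have hS' := Set.ncard_add_ncard_compl S'
  simp at hS'
  by_cases h5 : 2 ≤ S'.ncard
  · obtain ⟨G, hG, x, y, z, hxy, hyz, hxz⟩ := key h hC hD (top_of_inP hC h3 h5) hD3
    exact not_B_of_triangle hG x y z hxy hyz hxz
  · have h6 : 2 ≤ S'ᶜ.ncard := by omega
    have h' : Prod B D C := by
      intro n G
      rw [h n G]
      constructor
      · rintro ⟨S, h1, h2⟩
        exact ⟨Sᶜ, h2, by rwa [compl_compl]⟩
      · rintro ⟨S, h1, h2⟩
        exact ⟨Sᶜ, h2, by rwa [compl_compl]⟩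
    obtain ⟨G, hG, x, y, z, hxy, hyz, hxz⟩ := key h' hD hC (top_of_inP hD h4 h6) hC3
    exact not_B_of_triangle hG x y z hxy hyz hxz

lemma merge {n : ℕ} (G : SimpleGraph (Fin n)) (c : Fin n → Fin 3)
    (h : ∀ i, InP A G {v | c v = i}) (k : Fin 3)
    (hk : (∀ i, i ≠ k → ({v | c v = i} : Set (Fin n)).ncard ≤ 2) ∨
      (∀ i, i ≠ k → ({v | c v = i} : Set (Fin n)).ncard ≤ 3 ∧
        ∀ a ∈ ({v | c v = i} : Set (Fin n)), ∀ b ∈ ({v | c v = i} : Set (Fin n)),
          ¬ G.Adj a b)) :
    ∃ c' : Fin n → Fin 2, ∀ j : Fin 2, InP ((![A, B] : Fin 2 → Prp) j) G {v | c' v = j} := by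
  classical
  refine ⟨fun v => if c v = k then 0 else 1, fun j => ?_⟩
  fin_cases j
  · have : {v | (if c v = k then (0 : Fin 2) else 1) = 0} = {v | c v = k} := by
      ext v
      simp
    simp only [Fin.zero_eta, Matrix.cons_val_zero]
    rw [this]
    exact h k
  · obtain ⟨i, j, hij, hik, hjk, hall⟩ : ∃ i j : Fin 3, i ≠ j ∧ i ≠ k ∧ j ≠ k ∧
        ∀ l, l ≠ k → l = i ∨ l = j := by
      clear hk
      revert k
      decide
    have hset : {v | (if c v = k then (0 : Fin 2) else 1) = 1} =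
        {v | c v = i} ∪ {v | c v = j} := by
      ext v
      simp only [Set.mem_ofPred_eq, Set.mem_union]
      constructor
      · intro h1
        apply hall
        intro h2
        simp [h2] at h1
      · rintro (h1 | h1)
        · rw [h1, if_neg hik]
        · rw [h1, if_neg hjk]
    simp only [Fin.mk_one, Matrix.cons_val_one]
    change InP B G {v | (if c v = k then (0 : Fin 2) else 1) = 1}
    rw [hset, inB_iff]
    rcases hk with hk | hk
    · left
      have h1 := Set.ncard_union_le {v | c v = i} {v | c v = j}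
      have h2 := hk i hik
      have h3 := hk j hjk
      omega
    · right
      refine ⟨_, _, rfl, ?_, (hk i hik).1, (hk j hjk).1, (hk i hik).2, (hk j hjk).2⟩
      rw [Set.disjoint_left]
      intro v hv hv'
      exact hij (hv.symm.trans hv')

theorem cube_eq (n : ℕ) (G : SimpleGraph (Fin n)) :
    (∃ c : Fin n → Fin 3, ∀ i : Fin 3, InP A G {v | c v = i}) ↔
    (∃ c : Fin n → Fin 2, ∀ j : Fin 2, InP ((![A, B] : Fin 2 → Prp) j) G {v | c v = j}) := by
  classical
  constructor
  · rintro ⟨c, h⟩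
    have h' : ∀ i, (({v | c v = i} : Set (Fin n)).ncard ≤ 2) ∨
      (({v | c v = i} : Set (Fin n)).ncard ≤ 3 ∧
        ∀ a ∈ ({v | c v = i} : Set (Fin n)), ∀ b ∈ ({v | c v = i} : Set (Fin n)),
          ¬ G.Adj a b) := fun i => (inA_iff G _).mp (h i)
    have key : ∀ (p q : Fin 3 → Prop), (∀ i, p i ∨ q i) →
        ∃ k : Fin 3, (∀ i, i ≠ k → p i) ∨ (∀ i, i ≠ k → q i) := by
      intro p q hpq
      have h0 := hpq 0
      have h1 := hpq 1
      have h2 := hpq 2
      by_cases p0 : p 0 <;> by_cases p1 : p 1 <;> by_cases p2 : p 2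
      · exact ⟨0, Or.inl (by intro i _; fin_cases i <;> assumption)⟩
      · exact ⟨2, Or.inl (by intro i hi; fin_cases i <;> first | assumption | exact absurd rfl hi)⟩
      · exact ⟨1, Or.inl (by intro i hi; fin_cases i <;> first | assumption | exact absurd rfl hi)⟩
      · exact ⟨0, Or.inr (by
          intro i hi; fin_cases i <;> first | exact absurd rfl hi | tauto)⟩
      · exact ⟨0, Or.inl (by intro i hi; fin_cases i <;> first | assumption | exact absurd rfl hi)⟩
      · exact ⟨1, Or.inr (by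
          intro i hi; fin_cases i <;> first | exact absurd rfl hi | tauto)⟩
      · exact ⟨2, Or.inr (by
          intro i hi; fin_cases i <;> first | exact absurd rfl hi | tauto)⟩
      · exact ⟨0, Or.inr (by
          intro i hi; fin_cases i <;> first | exact absurd rfl hi | tauto)⟩
    obtain ⟨k, hk⟩ := key _ _ h'
    exact merge G c h k hk
  · rintro ⟨c, h⟩
    have h0 : InP A G {v | c v = 0} := h 0
    have h1 : InP B G {v | c v = 1} := h 1
    obtain ⟨T, U, hTU, hd, hT, hU⟩ : ∃ T U : Set (Fin n), {v | c v = 1} = T ∪ U ∧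
        Disjoint T U ∧ InP A G T ∧ InP A G U := by
      rcases (inB_iff G _).mp h1 with h2 | ⟨T, U, hTU, hd, hT, hU, hT', hU'⟩
      · obtain ⟨T, hT1, hT2⟩ := Set.exists_subset_card_eq (s := {v | c v = 1})
          (n := min 2 ({v | c v = 1} : Set (Fin n)).ncard) (min_le_right _ _)
        refine ⟨T, {v | c v = 1} \ T, (Set.union_sdiff_cancel hT1).symm, Set.disjoint_sdiff_right,
          (inA_iff _ _).mpr (Or.inl (by omega)), (inA_iff _ _).mpr (Or.inl ?_)⟩
        have := Set.ncard_sdiff_add_ncard_of_subset hT1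
        omega
      · exact ⟨T, U, hTU, hd, (inA_iff _ _).mpr (Or.inr ⟨hT, hT'⟩),
          (inA_iff _ _).mpr (Or.inr ⟨hU, hU'⟩)⟩
    refine ⟨fun v => if c v = 0 then 0 else if v ∈ T then 1 else 2, fun i => ?_⟩
    have hc : ∀ v, c v = 0 ∨ c v = 1 := by
      intro v
      generalize c v = x
      fin_cases x
      · exact Or.inl rfl
      · exact Or.inr rfl
    have hTc : ∀ v ∈ T, c v = 1 := by
      intro v hv
      have : v ∈ {v | c v = 1} := by rw [hTU]; exact Or.inl hv
      exact this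
    have hUc : ∀ v ∈ U, c v = 1 := by
      intro v hv
      have : v ∈ {v | c v = 1} := by rw [hTU]; exact Or.inr hv
      exact this
    fin_cases i
    · have : {v | (if c v = 0 then (0 : Fin 3) else if v ∈ T then 1 else 2) = 0} =
          {v | c v = 0} := by
        ext v
        simp only [Set.mem_ofPred_eq]
        by_cases h2 : c v = 0
        · simp [h2]
        · by_cases h3 : v ∈ T <;> simp [h2, h3]
      change InP A G {v | (if c v = 0 then (0 : Fin 3) else if v ∈ T then 1 else 2) = 0}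
      rw [this]
      exact h0
    · have : {v | (if c v = 0 then (0 : Fin 3) else if v ∈ T then 1 else 2) = 1} = T := by
        ext v
        simp only [Set.mem_ofPred_eq]
        by_cases h2 : c v = 0
        · simp only [h2, if_true]
          constructor
          · intro h3; exact absurd h3 (by decide)
          · intro h3
            have := hTc v h3
            rw [h2] at this
            exact absurd this (by decide)
        · by_cases h3 : v ∈ T <;> simp [h2, h3]
      change InP A G {v | (if c v = 0 then (0 : Fin 3) else if v ∈ T then 1 else 2) = 1}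
      rw [this]
      exact hT
    · have : {v | (if c v = 0 then (0 : Fin 3) else if v ∈ T then 1 else 2) = 2} = U := by
        ext v
        simp only [Set.mem_ofPred_eq]
        by_cases h2 : c v = 0
        · simp only [h2, if_true]
          constructor
          · intro h3; exact absurd h3 (by decide)
          · intro h3
            have := hUc v h3
            rw [h2] at this
            exact absurd this (by decide)
        · have h4 : c v = 1 := (hc v).resolve_left h2
          have h5 : v ∈ T ∪ U := by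
            rw [← hTU]; exact h4
          by_cases h3 : v ∈ T
          · simp only [h2, h3, if_true, if_false]
            constructor
            · intro h6; exact absurd h6 (by decide)
            · intro h6; exact absurd h6 (Set.disjoint_left.mp hd h3)
          · simp only [h2, h3, if_false, true_iff]
            exact h5.resolve_left h3
      change InP A G {v | (if c v = 0 then (0 : Fin 3) else if v ∈ T then 1 else 2) = 2}
      rw [this]
      exact hU

end Pool.Agent.W123.UF
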