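import Mathlib

set_option autoImplicit false

/-!
# The complement of the twofold subdivision of a digraph, with a marker
-/

namespace Pool.Agent.W123.HG

/-- vertices of the graph `X`: the vertices and, twice, the arcs of a digraph, and a marker -/
inductive Wt (V E : Type) : Type
  | vtx : V → Wt V E
  | out : E → Wt V E
  | inn : E → Wt V E
  | mark : Wt V E

open Wt

/-- adjacency in `X` -/
def adj {V E : Type} (s t : E → V) : Wt V E → Wt V E → Prop
  | vtx a, vtx b => a ≠ b
  | out a, out b => a ≠ b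
  | inn a, inn b => a ≠ b
  | vtx v, out e => v ≠ s e
  | out e, vtx v => v ≠ s e
  | vtx v, inn e => v ≠ t e
  | inn e, vtx v => v ≠ t e
  | out e, inn e' => e ≠ e'
  | inn e', out e => e ≠ e'
  | mark, out _ => True
  | out _, mark => True
  | mark, mark => False
  | mark, vtx _ => False
  | mark, inn _ => False
  | vtx _, mark => False
  | inn _, mark => False

/-- the graph `X` -/
def X {V E : Type} (s t : E → V) : SimpleGraph (Wt V E) where
  Adj := adj s t
  symm := ⟨by
    intro a b h
    cases a <;> cases b <;> simp only [adj] at h ⊢ <;> first | exact h.symm | exact h⟩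
  loopless := ⟨by
    intro a h
    cases a <;> simp [adj] at h⟩

variable {V E : Type} {s t : E → V}

/-- a vertex whose neighbours are pairwise adjacent -/
def Simp {W : Type} (G : SimpleGraph W) (x : W) : Prop :=
  ∀ y z, G.Adj x y → G.Adj x z → y ≠ z → G.Adj y z

lemma Simp.map {W : Type} {G : SimpleGraph W} (φ : G ≃g G) {x : W} (h : Simp G x) :
    Simp G (φ x) := by
  intro y z hy hz hyz
  have h1 := h (φ.symm y) (φ.symm z)
    (by have := φ.symm.map_rel_iff.mpr hy; simpa using this)
    (by have := φ.symm.map_rel_iff.mpr hz; simpa using this)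
    (fun h => hyz (φ.symm.injective h))
  exact φ.symm.map_rel_iff.mp h1

/-- the assumptions on the digraph -/
structure Good (s t : E → V) : Prop where
  two : ∀ v, ∃ e e', e ≠ e' ∧ s e = v ∧ s e' = v
  far : ∀ v, ∃ e, s e ≠ v ∧ t e ≠ v

lemma simp_iff (h : Good s t) (x : Wt V E) : Simp (X s t) x ↔ x = mark := by
  constructor
  · intro hx
    cases x with
    | mark => rfl
    | vtx v =>
      exfalso
      obtain ⟨e, h1, h2⟩ := h.far v
      exact hx (out e) (inn e) (Ne.symm h1) (Ne.symm h2) (by simp) rfl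
    | out e =>
      exfalso
      obtain ⟨e', h1, -⟩ := h.far (s e)
      exact hx mark (vtx (s e')) trivial h1 (by simp)
    | inn e =>
      exfalso
      obtain ⟨e', h1, -⟩ := h.far (t e)
      obtain ⟨a, b, hab, ha, hb⟩ := h.two (s e')
      by_cases hae : a = e
      · have hbe : b ≠ e := fun h => hab (hae.trans h.symm)
        exact hx (vtx (s e')) (out b) h1 hbe (by simp) hb.symm
      · exact hx (vtx (s e')) (out a) h1 hae (by simp) ha.symm
  · rintro rfl y z hy hz hyz
    cases y <;> cases z <;> simp_all [X, adj]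

lemma map_mark (h : Good s t) (φ : X s t ≃g X s t) : φ mark = mark :=
  (simp_iff h _).mp (Simp.map φ ((simp_iff h _).mpr rfl))

lemma adj_mark (x : Wt V E) : (X s t).Adj mark x ↔ ∃ e, x = out e := by
  cases x <;> simp [X, adj]

lemma map_out (h : Good s t) (φ : X s t ≃g X s t) (e : E) : ∃ e', φ (out e) = out e' := by
  rw [← adj_mark (s := s) (t := t)]
  have := φ.map_rel_iff.mpr (show (X s t).Adj mark (out e) from trivial)
  rwa [map_mark h] at this

/-- having two non-neighbours among the `out` vertices -/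
def Two (s t : E → V) (x : Wt V E) : Prop :=
  x ≠ mark ∧ (∀ e, x ≠ out e) ∧ ∃ e e', e ≠ e' ∧ ¬ (X s t).Adj x (out e) ∧ ¬ (X s t).Adj x (out e')

lemma two_iff (h : Good s t) (x : Wt V E) : Two s t x ↔ ∃ v, x = vtx v := by
  constructor
  · rintro ⟨h1, h2, e, e', hee, h3, h4⟩
    cases x with
    | vtx v => exact ⟨v, rfl⟩
    | out e => exact absurd rfl (h2 e)
    | mark => exact absurd rfl h1
    | inn a =>
      exfalso
      have h5 : e = a := not_not.mp h3
      have h6 : e' = a := not_not.mp h4
      exact hee (h5.trans h6.symm)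
  · rintro ⟨v, rfl⟩
    obtain ⟨e, e', hee, h1, h2⟩ := h.two v
    exact ⟨by simp, by simp, e, e', hee, fun h3 => h3 h1.symm, fun h3 => h3 h2.symm⟩

lemma Two.map (h : Good s t) (φ : X s t ≃g X s t) {x : Wt V E} (hx : Two s t x) :
    Two s t (φ x) := by
  obtain ⟨h1, h2, e, e', hee, h3, h4⟩ := hx
  obtain ⟨a, ha⟩ := map_out h φ e
  obtain ⟨a', ha'⟩ := map_out h φ e'
  refine ⟨fun h5 => h1 (φ.injective (h5.trans (map_mark h φ).symm)), fun b hb => ?_, a, a', ?_, ?_, ?_⟩
  · obtain ⟨b', hb'⟩ := map_out h φ.symm b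
    exact h2 b' (by rw [← hb', ← hb]; simp)
  · intro h5
    rw [h5, ← ha'] at ha
    have := φ.injective ha
    simp only [Wt.out.injEq] at this
    exact hee this
  · rw [← ha]
    exact fun h5 => h3 (φ.map_rel_iff.mp h5)
  · rw [← ha']
    exact fun h5 => h4 (φ.map_rel_iff.mp h5)

lemma map_vtx (h : Good s t) (φ : X s t ≃g X s t) (v : V) : ∃ v', φ (vtx v) = vtx v' :=
  (two_iff h _).mp (Two.map h φ ((two_iff h _).mpr ⟨v, rfl⟩))

lemma map_inn (h : Good s t) (φ : X s t ≃g X s t) (e : E) : ∃ e', φ (inn e) = inn e' := by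
  cases h1 : φ (inn e) with
  | inn e' => exact ⟨e', rfl⟩
  | mark =>
    exfalso
    rw [← map_mark h φ] at h1
    have := φ.injective h1
    simp at this
  | vtx v =>
    exfalso
    obtain ⟨v', hv'⟩ := map_vtx h φ.symm v
    rw [← h1] at hv'
    simp at hv'
  | out v =>
    exfalso
    obtain ⟨v', hv'⟩ := map_out h φ.symm v
    rw [← h1] at hv'
    simp at hv'

/-- an automorphism of `X` comes from an automorphism of the digraph -/
theorem aut_form (h : Good s t) (φ : X s t ≃g X s t) : ∃ (α : V → V) (β : E → E),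
    (∀ v, φ (vtx v) = vtx (α v)) ∧ (∀ e, φ (out e) = out (β e)) ∧ (∀ e, φ (inn e) = inn (β e)) ∧
    (∀ e, s (β e) = α (s e)) ∧ (∀ e, t (β e) = α (t e)) := by
  choose α hα using map_vtx h φ
  choose β hβ using map_out h φ
  choose δ hδ using map_inn h φ
  have hβδ : ∀ e, δ e = β e := by
    intro e
    have h1 : ¬ (X s t).Adj (out e) (inn e) := fun h => h rfl
    rw [← φ.map_rel_iff, hβ, hδ] at h1
    exact (not_not.mp h1).symm
  refine ⟨α, β, hα, hβ, fun e => by rw [hδ, hβδ], fun e => ?_, fun e => ?_⟩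
  · have h1 : ¬ (X s t).Adj (vtx (s e)) (out e) := fun h => h rfl
    rw [← φ.map_rel_iff, hα, hβ] at h1
    exact (not_not.mp h1).symm
  · have h1 : ¬ (X s t).Adj (vtx (t e)) (inn e) := fun h => h rfl
    rw [← φ.map_rel_iff, hα, hδ, hβδ] at h1
    exact (not_not.mp h1).symm

end Pool.Agent.W123.HG
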