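import Pool.Agent.W123.HGAut

set_option autoImplicit false

/-!
# A digraph of out-degree two with a given finite automorphism group
-/

namespace Pool.Agent.W123.HG

open Wt

section
variable {Γ : Type} [Group Γ] {n : ℕ} (γ : Fin (n + 3) → Γ)

/-- the vertices: `n + 3` layers, each a copy of the group -/
abbrev V (Γ : Type) (n : ℕ) := Γ × Fin (n + 3)

/-- two arcs leave each vertex -/
abbrev E (Γ : Type) (n : ℕ) := V Γ n × Bool

/-- next layer (the last layer is fixed) -/
def nx (v : V Γ n) : V Γ n := (v.1, if h : v.2.val + 1 < n + 3 then ⟨v.2.val + 1, h⟩ else v.2)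

/-- back to layer `0`, multiplying by the group element attached to the layer -/
def bk (v : V Γ n) : V Γ n := (v.1 * γ v.2, 0)

/-- source of an arc -/
def sr (e : E Γ n) : V Γ n := e.1

/-- target of an arc -/
def tg (e : E Γ n) : V Γ n := if e.2 then bk γ e.1 else nx e.1

@[simp] lemma tg_true (v : V Γ n) : tg γ (v, true) = bk γ v := rfl
@[simp] lemma tg_false (v : V Γ n) : tg γ (v, false) = nx v := rfl

omit [Group Γ] in
lemma nx_ne (v : V Γ n) : (nx v).2 ≠ 0 := by
  unfold nx
  dsimp only
  split_ifs with h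
  · intro h1
    have := congrArg Fin.val h1
    simp at this
  · intro h1
    rw [h1] at h
    simp at h

lemma good : Good (sr (Γ := Γ) (n := n)) (tg γ) := by
  constructor
  · intro v
    exact ⟨(v, false), (v, true), by simp, rfl, rfl⟩
  · intro v
    by_cases h : v.2 = 0
    · refine ⟨((1, 1), false), ?_, ?_⟩
      · intro h1
        rw [← h1] at h
        simp [sr] at h
      · intro h1
        rw [← h1, tg_false] at h
        exact nx_ne _ h
    · refine ⟨((1, 0), true), ?_, ?_⟩
      · intro h1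
        rw [← h1] at h
        simp [sr] at h
      · intro h1
        rw [← h1, tg_true] at h
        simp [bk] at h

/-- at least three arcs end at `v` -/
def Three (v : V Γ n) : Prop := ∃ a b c : E Γ n, a ≠ b ∧ b ≠ c ∧ a ≠ c ∧
  tg γ a = v ∧ tg γ b = v ∧ tg γ c = v

lemma three_iff (v : V Γ n) : Three γ v ↔ v.2 = 0 := by
  constructor
  · rintro ⟨a, b, c, hab, hbc, hac, ha, hb, hc⟩
    by_contra hv
    have key : ∀ e : E Γ n, tg γ e = v → e.2 = false ∧ e.1.1 = v.1 ∧
        (e.1.2.val + 1 = v.2.val ∨ e.1.2 = v.2) := by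
      rintro ⟨w, b⟩ he
      cases b
      · refine ⟨rfl, ?_, ?_⟩
        · rw [← he]; rfl
        · rw [← he, tg_false]
          unfold nx
          dsimp only
          split_ifs with h
          · exact Or.inl rfl
          · exact Or.inr rfl
      · exfalso
        apply hv
        rw [← he]
        rfl
    obtain ⟨a1, a2, a3⟩ := key a ha
    obtain ⟨b1, b2, b3⟩ := key b hb
    obtain ⟨c1, c2, c3⟩ := key c hc
    have ext : ∀ e e' : E Γ n, e.2 = e'.2 → e.1.1 = e'.1.1 → e.1.2.val = e'.1.2.val → e = e' := by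
      rintro ⟨⟨g, i⟩, b⟩ ⟨⟨g', i'⟩, b'⟩ h1 h2 h3
      simp only at h1 h2 h3
      rw [h1, h2, Fin.ext h3]
    have a3' : a.1.2.val + 1 = v.2.val ∨ a.1.2.val = v.2.val := a3.imp_right (congrArg _)
    have b3' : b.1.2.val + 1 = v.2.val ∨ b.1.2.val = v.2.val := b3.imp_right (congrArg _)
    have c3' : c.1.2.val + 1 = v.2.val ∨ c.1.2.val = v.2.val := c3.imp_right (congrArg _)
    have h1 : a.1.2.val ≠ b.1.2.val := fun h => hab (ext _ _ (a1.trans b1.symm) (a2.trans b2.symm) h)
    have h2 : b.1.2.val ≠ c.1.2.val := fun h => hbc (ext _ _ (b1.trans c1.symm) (b2.trans c2.symm) h)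
    have h3 : a.1.2.val ≠ c.1.2.val := fun h => hac (ext _ _ (a1.trans c1.symm) (a2.trans c2.symm) h)
    omega
  · intro h
    obtain ⟨g, i⟩ := v
    simp only at h
    subst h
    refine ⟨((g * (γ 0)⁻¹, 0), true), ((g * (γ 1)⁻¹, 1), true), ((g * (γ 2)⁻¹, 2), true),
      ?_, ?_, ?_, ?_, ?_, ?_⟩
    · simp
    · intro h
      have := congrArg (fun e : E Γ n => e.1.2.val) h
      simp at this
      have h2 : 2 % (n + 3) = 2 := Nat.mod_eq_of_lt (by omega)
      omega
    · intro h
      have := congrArg (fun e : E Γ n => e.1.2.val) h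
      simp at this
      have h2 : 2 % (n + 3) = 2 := Nat.mod_eq_of_lt (by omega)
      omega
    · simp [bk]
    · simp [bk]
    · simp [bk]

lemma digraph_aut (hγ : Function.Surjective γ) (α : V Γ n → V Γ n) (β : E Γ n → E Γ n)
    (hα : Function.Injective α) (hβ : Function.Bijective β)
    (hs : ∀ e, sr (β e) = α (sr e)) (ht : ∀ e, tg γ (β e) = α (tg γ e)) :
    ∃ g : Γ, (∀ v, α v = (g * v.1, v.2)) ∧ ∀ e, β e = ((g * e.1.1, e.1.2), e.2) := by
  -- layer `0` is preserved
  have h0 : ∀ v, v.2 = 0 → (α v).2 = 0 := by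
    intro v hv
    rw [← three_iff γ] at hv ⊢
    obtain ⟨a, b, c, hab, hbc, hac, ha, hb, hc⟩ := hv
    exact ⟨β a, β b, β c, hβ.1.ne hab, hβ.1.ne hbc, hβ.1.ne hac, by rw [ht, ha],
      by rw [ht, hb], by rw [ht, hc]⟩
  have h0' : ∀ v, v.2 ≠ 0 → (α v).2 ≠ 0 := by
    intro v hv hv'
    apply hv
    rw [← three_iff γ] at hv' ⊢
    obtain ⟨a, b, c, hab, hbc, hac, ha, hb, hc⟩ := hv'
    obtain ⟨a, rfl⟩ := hβ.2 a
    obtain ⟨b, rfl⟩ := hβ.2 b
    obtain ⟨c, rfl⟩ := hβ.2 c
    rw [ht] at ha hb hc
    exact ⟨a, b, c, fun h => hab (by rw [h]), fun h => hbc (by rw [h]), fun h => hac (by rw [h]),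
      hα ha, hα hb, hα hc⟩
  -- the kind of an arc is preserved
  have hb2 : ∀ e, (β e).2 = e.2 := by
    rintro ⟨v, b⟩
    have h1 := ht (v, b)
    cases b
    · have h2 : (tg γ (β (v, false))).2 ≠ 0 := by
        rw [h1]
        exact h0' _ (by rw [tg_false]; exact nx_ne v)
      cases h3 : (β (v, false)).2
      · rfl
      · exfalso
        apply h2
        unfold tg
        rw [h3]
        rfl
    · have h2 : (tg γ (β (v, true))).2 = 0 := by
        rw [h1]
        exact h0 _ rfl
      cases h3 : (β (v, true)).2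
      · exfalso
        unfold tg at h2
        rw [h3] at h2
        exact nx_ne _ h2
      · rfl
  have hβ' : ∀ v b, β (v, b) = (α v, b) := fun v b => Prod.ext (hs (v, b)) (hb2 (v, b))
  have hnx : ∀ v, α (nx v) = nx (α v) := by
    intro v
    have := ht (v, false)
    rw [hβ', tg_false, tg_false] at this
    exact this.symm
  have hbk : ∀ v, α (bk γ v) = bk γ (α v) := by
    intro v
    have := ht (v, true)
    rw [hβ', tg_true, tg_true] at this
    exact this.symm
  -- layers
  have hlay : ∀ (k : ℕ) (hk : k < n + 3) (h : Γ), α (h, ⟨k, hk⟩) = ((α (h, 0)).1, ⟨k, hk⟩) := by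
    intro k
    induction k with
    | zero =>
      intro hk h
      have : (⟨0, hk⟩ : Fin (n + 3)) = 0 := rfl
      rw [this]
      exact Prod.ext rfl (h0 _ rfl)
    | succ k ih =>
      intro hk h
      have h1 : ((h, ⟨k + 1, hk⟩) : V Γ n) = nx (h, ⟨k, by omega⟩) := by
        unfold nx
        dsimp only
        rw [dif_pos hk]
      rw [h1, hnx, ih (by omega)]
      unfold nx
      dsimp only
      rw [dif_pos hk]
  have hlay' : ∀ (h : Γ) (i : Fin (n + 3)), α (h, i) = ((α (h, 0)).1, i) :=
    fun h i => hlay i.val i.2 h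
  have hmul : ∀ h g : Γ, (α (h * g, 0)).1 = (α (h, 0)).1 * g := by
    intro h g
    obtain ⟨i, rfl⟩ := hγ g
    have h1 := hbk (h, i)
    rw [hlay' h i] at h1
    exact congrArg Prod.fst h1
  have hα' : ∀ v, α v = ((α (1, 0)).1 * v.1, v.2) := by
    rintro ⟨h, i⟩
    rw [hlay']
    have := hmul 1 h
    rw [one_mul] at this
    rw [this]
  refine ⟨(α (1, 0)).1, hα', ?_⟩
  rintro ⟨v, b⟩
  rw [hβ', hα']

/-- left multiplication -/
def act (g : Γ) : Wt (V Γ n) (E Γ n) → Wt (V Γ n) (E Γ n)
  | vtx v => vtx (g * v.1, v.2)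
  | out e => out ((g * e.1.1, e.1.2), e.2)
  | inn e => inn ((g * e.1.1, e.1.2), e.2)
  | mark => mark

lemma act_mul (g h : Γ) (x : Wt (V Γ n) (E Γ n)) : act (g * h) x = act g (act h x) := by
  cases x <;> simp [act, mul_assoc]

lemma act_one (x : Wt (V Γ n) (E Γ n)) : act 1 x = x := by
  cases x <;> simp [act]

lemma tg_act (g : Γ) (e : E Γ n) :
    tg γ ((g * e.1.1, e.1.2), e.2) = (g * (tg γ e).1, (tg γ e).2) := by
  obtain ⟨v, b⟩ := e
  cases b <;> simp [tg, nx, bk, mul_assoc]

lemma ne_act (g : Γ) (v w : V Γ n) :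
    ((g * v.1, v.2) : V Γ n) ≠ (g * w.1, w.2) ↔ v ≠ w := by
  rw [not_iff_not]
  constructor
  · intro h
    have h1 := congrArg Prod.fst h
    have h2 := congrArg Prod.snd h
    simp only [mul_right_inj] at h1 h2
    exact Prod.ext h1 h2
  · rintro rfl; rfl

lemma ne_act' (g : Γ) (v w : E Γ n) :
    (((g * v.1.1, v.1.2), v.2) : E Γ n) ≠ ((g * w.1.1, w.1.2), w.2) ↔ v ≠ w := by
  rw [not_iff_not]
  constructor
  · intro h
    have h1 := congrArg (fun e : E Γ n => e.1.1) h
    have h2 := congrArg (fun e : E Γ n => e.1.2) h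
    have h3 := congrArg (fun e : E Γ n => e.2) h
    simp only [mul_right_inj] at h1 h2 h3
    exact Prod.ext (Prod.ext h1 h2) h3
  · rintro rfl; rfl

lemma act_adj (g : Γ) (x y : Wt (V Γ n) (E Γ n)) :
    (X sr (tg γ)).Adj (act g x) (act g y) ↔ (X sr (tg γ)).Adj x y := by
  cases x <;> cases y <;> simp only [X, adj, act, sr, tg_act] <;>
    first | exact Iff.rfl | exact ne_act g _ _ | exact ne_act' g _ _

/-- the action as an automorphism -/
def actIso (g : Γ) : X sr (tg γ) ≃g X sr (tg γ) where
  toFun := act g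
  invFun := act g⁻¹
  left_inv x := by rw [← act_mul, inv_mul_cancel, act_one]
  right_inv x := by rw [← act_mul, mul_inv_cancel, act_one]
  map_rel_iff' := act_adj γ g _ _

/-- the action as a homomorphism -/
def actHom : Γ →* (X sr (tg γ) ≃g X sr (tg γ)) where
  toFun := actIso γ
  map_one' := by
    ext x
    exact act_one x
  map_mul' g h := by
    ext x
    exact act_mul g h x

theorem actHom_bijective (hγ : Function.Surjective γ) : Function.Bijective (actHom γ) := by
  constructor
  · intro g h hgh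
    have h1 : act g (vtx (1, 0)) = act (n := n) h (vtx (1, 0)) := by
      have := congrArg (fun φ : X sr (tg γ) ≃g X sr (tg γ) => φ (vtx (1, 0))) hgh
      exact this
    simp only [act, mul_one, vtx.injEq, Prod.mk.injEq, and_true] at h1
    exact h1
  · intro φ
    obtain ⟨α, β, hα, hβo, hβi, hs, ht⟩ := aut_form (good γ) φ
    obtain ⟨α', β', hα', hβo', hβi', hs', ht'⟩ := aut_form (good γ) φ.symm
    have hαinj : Function.Injective α := by
      intro a b hab
      have : φ (vtx a) = φ (vtx b) := by rw [hα, hα, hab]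
      have := φ.injective this
      simpa using this
    have hβbij : Function.Bijective β := by
      constructor
      · intro a b hab
        have : φ (out a) = φ (out b) := by rw [hβo, hβo, hab]
        have := φ.injective this
        simpa using this
      · intro e
        refine ⟨β' e, ?_⟩
        have : φ (φ.symm (out e)) = out e := by simp
        rw [hβo', hβo] at this
        simpa using this
    obtain ⟨g, h1, h2⟩ := digraph_aut γ hγ α β hαinj hβbij hs ht
    refine ⟨g, ?_⟩
    ext x
    change act g x = φ x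
    cases x with
    | vtx v => rw [hα, h1]; rfl
    | out e => rw [hβo, h2]; rfl
    | inn e => rw [hβi, h2]; rfl
    | mark => rw [map_mark (good γ)]; rfl

end

end Pool.Agent.W123.HG
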