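import Pool.Agent.W123.HGGroup

set_option autoImplicit false

/-!
# Intersection graphs of connected subgraphs of the subdivisions of a fixed graph
-/

namespace Pool.Agent.W123.HG

/-- A subdivision of `Y`: every edge `e` is replaced by a path from its end `src e` to its other
end `tgt e` with `len e` new internal vertices. -/
structure Subdivision {V : Type} (Y : SimpleGraph V) where
  /-- number of new vertices on the edge -/
  len : Y.edgeSet → ℕ
  /-- first end of the edge -/
  src : Y.edgeSet → V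
  /-- second end of the edge -/
  tgt : Y.edgeSet → V
  ends : ∀ e : Y.edgeSet, (e : Sym2 V) = s(src e, tgt e)

/-- The vertices of a subdivision: the vertices of `Y`, and for each edge `e` the new vertices
`(e, 0), …, (e, len e - 1)`. -/
abbrev Subdivision.Vert {V : Type} {Y : SimpleGraph V} (D : Subdivision Y) : Type :=
  V ⊕ (Σ e : Y.edgeSet, Fin (D.len e))

/-- `y` follows `x` on the path `src e, (e, 0), …, (e, len e - 1), tgt e` of some edge `e`. -/
def Subdivision.Next {V : Type} {Y : SimpleGraph V} (D : Subdivision Y) : D.Vert → D.Vert → Prop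
  | .inl a, .inl b => ∃ e, D.len e = 0 ∧ D.src e = a ∧ D.tgt e = b
  | .inl a, .inr ⟨e, i⟩ => D.src e = a ∧ i.val = 0
  | .inr ⟨e, i⟩, .inr ⟨e', j⟩ => e = e' ∧ j.val = i.val + 1
  | .inr ⟨e, i⟩, .inl b => D.tgt e = b ∧ i.val + 1 = D.len e

/-- The subdivided graph. -/
def Subdivision.graph {V : Type} {Y : SimpleGraph V} (D : Subdivision Y) : SimpleGraph D.Vert :=
  SimpleGraph.fromRel D.Next

/-- `X` is (isomorphic to) the intersection graph of a family of connected subgraphs of some
subdivision of `Y`. -/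
def InClass {W V : Type} (Y : SimpleGraph V) (X : SimpleGraph W) : Prop :=
  ∃ (D : Subdivision Y) (S : W → D.graph.Subgraph),
    (∀ w, (S w).Connected) ∧
    ∀ v w, X.Adj v w ↔ v ≠ w ∧ ((S v).verts ∩ (S w).verts).Nonempty

/-! ### The fixed graph `Y` -/

/-- adjacency of `Y`: the hub `i` is adjacent to the middle `(j, b)` when `i ≠ j` -/
def yadj : Fin 3 ⊕ Fin 3 × Bool → Fin 3 ⊕ Fin 3 × Bool → Prop
  | .inl i, .inr m => i ≠ m.1
  | .inr m, .inl i => i ≠ m.1
  | _, _ => False

/-- three hubs, any two of them joined by two paths of length two -/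
def Y : SimpleGraph (Fin 3 ⊕ Fin 3 × Bool) where
  Adj := yadj
  symm := ⟨by
    rintro (a | a) (b | b) h <;> exact h⟩
  loopless := ⟨by
    rintro (a | a) h <;> exact h⟩

lemma edge_form (e : Y.edgeSet) : ∃ (i : Fin 3) (m : Fin 3 × Bool), i ≠ m.1 ∧
    (e : Sym2 _) = s(Sum.inl i, Sum.inr m) := by
  obtain ⟨e, he⟩ := e
  induction e with
  | _ x y =>
    rw [SimpleGraph.mem_edgeSet] at he
    rcases x with i | m <;> rcases y with i' | m'
    · exact he.elim
    · exact ⟨i, m', he, rfl⟩
    · exact ⟨i', m, he, Sym2.eq_swap⟩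
    · exact he.elim

/-- the hub of an edge -/
noncomputable def hub (e : Y.edgeSet) : Fin 3 := (edge_form e).choose

/-- the middle of an edge -/
noncomputable def mid (e : Y.edgeSet) : Fin 3 × Bool := (edge_form e).choose_spec.choose

lemma hub_ne (e : Y.edgeSet) : hub e ≠ (mid e).1 := (edge_form e).choose_spec.choose_spec.1

lemma edge_eq (e : Y.edgeSet) : (e : Sym2 _) = s(Sum.inl (hub e), Sum.inr (mid e)) :=
  (edge_form e).choose_spec.choose_spec.2

/-- the edge from hub `i` to middle `m` -/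
def edg (i : Fin 3) (m : Fin 3 × Bool) (h : i ≠ m.1) : Y.edgeSet :=
  ⟨s(Sum.inl i, Sum.inr m), h⟩

lemma hub_edg (i : Fin 3) (m : Fin 3 × Bool) (h : i ≠ m.1) :
    hub (edg i m h) = i ∧ mid (edg i m h) = m := by
  have h1 := edge_eq (edg i m h)
  have h2 : s(Sum.inl i, Sum.inr m) = s(Sum.inl (hub (edg i m h)), Sum.inr (mid (edg i m h))) := h1
  rw [Sym2.eq_iff] at h2
  rcases h2 with ⟨h3, h4⟩ | ⟨h3, h4⟩
  · exact ⟨(Sum.inl.inj h3).symm, (Sum.inr.inj h4).symm⟩
  · exact absurd h3 (by simp)

lemma eq_edg (e : Y.edgeSet) : e = edg (hub e) (mid e) (hub_ne e) := Subtype.ext (edge_eq e)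

/-- the subdivision: the strand through `m` gets `N` new vertices between the hub `m.1 + 1` and
the middle `m` -/
noncomputable def D (N : ℕ) : Subdivision Y where
  len e := if hub e = (mid e).1 + 1 then N else 0
  src e := Sum.inl (hub e)
  tgt e := Sum.inr (mid e)
  ends := edge_eq

lemma hub_of_pos {N : ℕ} {e : Y.edgeSet} (p : Fin ((D N).len e)) :
    hub e = (mid e).1 + 1 ∧ (D N).len e = N := by
  by_cases h : hub e = (mid e).1 + 1
  · exact ⟨h, if_pos h⟩
  · have h1 : (D N).len e = 0 := if_neg h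
    have := p.2
    omega

/-- the vertex sets of the subgraphs -/
def Cls (N : ℕ) (k : Fin 3) (a : Fin 3 × Bool → ℕ) : Set (D N).Vert :=
  {x | match x with
    | .inl (.inl i) => i = k
    | .inl (.inr m) => k = m.1 + 2
    | .inr ⟨e, p⟩ => (k = (mid e).1 + 1 ∧ p.val < a (mid e)) ∨
        (k = (mid e).1 + 2 ∧ a (mid e) ≤ p.val)}

lemma cls_inter {N : ℕ} {k k' : Fin 3} {a a' : Fin 3 × Bool → ℕ} (ha : ∀ m, a m ≤ N)
    (ha' : ∀ m, a' m ≤ N) :
    (Cls N k a ∩ Cls N k' a').Nonempty ↔ k = k' ∨ ∃ m : Fin 3 × Bool,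
      (k = m.1 + 1 ∧ k' = m.1 + 2 ∧ a' m < a m) ∨ (k' = m.1 + 1 ∧ k = m.1 + 2 ∧ a m < a' m) := by
  constructor
  · rintro ⟨x, hx, hx'⟩
    rcases x with (i | m) | ⟨e, p⟩
    · exact Or.inl (Eq.trans (Eq.symm hx) hx')
    · exact Or.inl (Eq.trans hx (Eq.symm hx'))
    · rcases hx with ⟨h1, h2⟩ | ⟨h1, h2⟩ <;> rcases hx' with ⟨h3, h4⟩ | ⟨h3, h4⟩
      · exact Or.inl (h1.trans h3.symm)
      · exact Or.inr ⟨mid e, Or.inl ⟨h1, h3, by omega⟩⟩
      · exact Or.inr ⟨mid e, Or.inr ⟨h3, h1, by omega⟩⟩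
      · exact Or.inl (h1.trans h3.symm)
  · rintro (rfl | ⟨m, ⟨h1, h2, h3⟩ | ⟨h1, h2, h3⟩⟩)
    · exact ⟨Sum.inl (Sum.inl k), rfl, rfl⟩
    · have hne : m.1 + 1 ≠ m.1 := by
        generalize m.1 = j
        revert j
        decide
      have he := hub_edg _ m hne
      have hlen : (D N).len (edg _ m hne) = N := by
        change (if _ then _ else _) = _
        rw [he.1, he.2, if_pos rfl]
      have hlt : a' m < (D N).len (edg _ m hne) := by
        rw [hlen]
        have := ha m
        omega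
      refine ⟨Sum.inr ⟨edg _ m hne, ⟨a' m, hlt⟩⟩, Or.inl ⟨?_, ?_⟩, Or.inr ⟨?_, ?_⟩⟩
      · rw [he.2]; exact h1
      · rw [he.2]; exact h3
      · rw [he.2]; exact h2
      · rw [he.2]
    · have hne : m.1 + 1 ≠ m.1 := by
        generalize m.1 = j
        revert j
        decide
      have he := hub_edg _ m hne
      have hlen : (D N).len (edg _ m hne) = N := by
        change (if _ then _ else _) = _
        rw [he.1, he.2, if_pos rfl]
      have hlt : a m < (D N).len (edg _ m hne) := by
        rw [hlen]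
        have := ha' m
        omega
      refine ⟨Sum.inr ⟨edg _ m hne, ⟨a m, hlt⟩⟩, Or.inr ⟨?_, ?_⟩, Or.inl ⟨?_, ?_⟩⟩
      · rw [he.2]; exact h2
      · rw [he.2]
      · rw [he.2]; exact h1
      · rw [he.2]; exact h3

lemma cls_connected (N : ℕ) (k : Fin 3) (a : Fin 3 × Bool → ℕ) :
    ((D N).graph.induce (Cls N k a)).Connected := by
  have hk : (Sum.inl (Sum.inl k) : (D N).Vert) ∈ Cls N k a := rfl
  have step : ∀ (x y : (D N).Vert) (hx : x ∈ Cls N k a) (hy : y ∈ Cls N k a),
      (D N).Next x y → x ≠ y →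
      ((D N).graph.induce (Cls N k a)).Reachable ⟨x, hx⟩ ⟨y, hy⟩ := by
    intro x y hx hy h hne
    apply SimpleGraph.Adj.reachable
    exact ⟨hne, Or.inl h⟩
  have key : ∀ (x : (D N).Vert) (hx : x ∈ Cls N k a),
      ((D N).graph.induce (Cls N k a)).Reachable ⟨x, hx⟩ ⟨_, hk⟩ := by
    have hmid : ∀ (m : Fin 3 × Bool) (hx : (Sum.inl (Sum.inr m) : (D N).Vert) ∈ Cls N k a),
        ((D N).graph.induce (Cls N k a)).Reachable ⟨_, hx⟩ ⟨_, hk⟩ := by
      intro m hx
      have hx' : k = m.1 + 2 := hx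
      have hne : k ≠ m.1 := by
        rw [hx']
        generalize m.1 = j
        revert j
        decide
      have he := hub_edg _ m hne
      refine (step _ _ hk hx ⟨edg _ m hne, ?_, ?_, ?_⟩ (by simp)).symm
      · change (if _ then _ else _) = _
        rw [he.1, he.2, if_neg]
        rw [hx']
        generalize m.1 = j
        revert j
        decide
      · change Sum.inl _ = _
        rw [he.1]
      · change Sum.inr _ = _
        rw [he.2]
    rintro ((i | m) | ⟨e, p⟩) hx
    · have hx' : i = k := hx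
      subst hx'
      exact SimpleGraph.Reachable.refl _
    · exact hmid m hx
    · obtain ⟨h1, h2⟩ := hub_of_pos p
      rcases hx with ⟨h3, h4⟩ | ⟨h3, h4⟩
      · -- left part
        have : ∀ (q : ℕ) (hq : q < (D N).len e) (hqa : q < a (mid e)),
            ((D N).graph.induce (Cls N k a)).Reachable
              ⟨Sum.inr ⟨e, ⟨q, hq⟩⟩, Or.inl ⟨h3, hqa⟩⟩ ⟨_, hk⟩ := by
          intro q
          induction q with
          | zero =>
            intro hq hqa
            have h5 : (D N).Next (Sum.inl (Sum.inl k)) (Sum.inr ⟨e, ⟨0, hq⟩⟩) := by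
              refine ⟨?_, rfl⟩
              change Sum.inl (hub e) = _
              rw [h1, ← h3]
            exact (step _ _ hk _ h5 (by simp)).symm
          | succ q ih =>
            intro hq hqa
            refine SimpleGraph.Reachable.trans ?_ (ih (by omega) (by omega))
            have h5 : (D N).Next (Sum.inr ⟨e, ⟨q, by omega⟩⟩) (Sum.inr ⟨e, ⟨q + 1, hq⟩⟩) :=
              ⟨rfl, rfl⟩
            refine (step _ _ _ _ h5 ?_).symm
            intro h
            simp at h
        exact this p.val p.2 h4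
      · -- right part
        have : ∀ (r q : ℕ) (hq : q < (D N).len e) (hqa : a (mid e) ≤ q),
            q + 1 + r = (D N).len e →
            ((D N).graph.induce (Cls N k a)).Reachable
              ⟨Sum.inr ⟨e, ⟨q, hq⟩⟩, Or.inr ⟨h3, hqa⟩⟩ ⟨_, hk⟩ := by
          intro r
          induction r with
          | zero =>
            intro q hq hqa hr
            refine SimpleGraph.Reachable.trans ?_ (hmid (mid e) h3)
            have h5 : (D N).Next (Sum.inr ⟨e, ⟨q, hq⟩⟩) (Sum.inl (Sum.inr (mid e))) :=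
              ⟨rfl, by simpa using hr⟩
            exact step _ _ _ _ h5 (by simp)
          | succ r ih =>
            intro q hq hqa hr
            refine SimpleGraph.Reachable.trans ?_ (ih (q + 1) (by omega) (by omega) (by omega))
            have h5 : (D N).Next (Sum.inr ⟨e, ⟨q, hq⟩⟩) (Sum.inr ⟨e, ⟨q + 1, by omega⟩⟩) :=
              ⟨rfl, rfl⟩
            refine step _ _ _ _ h5 ?_
            intro h
            simp at h
        exact this ((D N).len e - p.val - 1) p.val p.2 h4 (by have := p.2; omega)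
  rw [SimpleGraph.connected_iff]
  refine ⟨fun x y => (key x.1 x.2).trans (key y.1 y.2).symm, ⟨⟨_, hk⟩⟩⟩

/-- a representation by hubs and cuts -/
theorem inClass_of_cuts {W : Type} (X : SimpleGraph W) (N : ℕ) (k : W → Fin 3)
    (a : W → Fin 3 × Bool → ℕ) (ha : ∀ w m, a w m ≤ N)
    (h : ∀ v w, X.Adj v w ↔ v ≠ w ∧ (k v = k w ∨ ∃ m : Fin 3 × Bool,
      (k v = m.1 + 1 ∧ k w = m.1 + 2 ∧ a w m < a v m) ∨
      (k w = m.1 + 1 ∧ k v = m.1 + 2 ∧ a v m < a w m))) : InClass Y X := by
  refine ⟨D N, fun w => (⊤ : (D N).graph.Subgraph).induce (Cls N (k w) (a w)), fun w => ?_, ?_⟩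
  · rw [← SimpleGraph.connected_induce_iff]
    exact cls_connected N (k w) (a w)
  · intro v w
    rw [h, ← cls_inter (ha v) (ha w)]
    rfl

end Pool.Agent.W123.HG
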